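import Pool.Agent.helper36.BP.SpecR

set_option autoImplicit false

open Finset
open Pool.Agent.FI Pool.Agent.HK
open Pool.Agent.CH (nit rgh ll2)
open Pool.Agent.SK (tr0 Th)

noncomputable section

namespace Pool.Agent.BP

private theorem RTC_one (y : ℝ) : rgh y 1 := by
  refine ⟨one_ne_zero, fun p hp h => ?_⟩
  exact absurd (Nat.dvd_one.1 h) hp.one_lt.ne'

private theorem RTC_dvd (y : ℝ) {a n : ℕ} (hn : rgh y n) (h : a ∣ n) : rgh y a := by
  refine ⟨fun h0 => hn.1 ?_, fun p hp hpa => hn.2 p hp (hpa.trans h)⟩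
  rw [h0] at h
  exact zero_dvd_iff.1 h

open scoped Classical in
private theorem RTC_cnt (y C : ℝ)
    (hRC : ∀ u : ℝ, 1 ≤ u → (#((Ioc 0 ⌊u⌋₊).filter fun n => rgh y n) : ℝ) ≤ 1 + C * u / Real.log y)
    (v : ℕ) : (#{n ∈ Ioc 1 v | rgh y n} : ℝ) ≤ C / Real.log y * v := by
  rcases Nat.eq_zero_or_pos v with h0 | h0
  · subst h0
    rw [Ioc_eq_empty (by omega), filter_empty, card_empty, Nat.cast_zero, mul_zero]
  · have h1 := hRC (v : ℝ) (by exact_mod_cast h0)
    rw [Nat.floor_natCast] at h1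
    have h2 : (Ioc 0 v).filter (fun n => rgh y n) = insert 1 {n ∈ Ioc 1 v | rgh y n} := by
      ext n
      rw [mem_insert, mem_filter, mem_filter, mem_Ioc, mem_Ioc]
      constructor
      · rintro ⟨h3, h4⟩
        rcases Nat.lt_or_ge 1 n with h5 | h5
        · exact Or.inr ⟨⟨h5, h3.2⟩, h4⟩
        · exact Or.inl (by omega)
      · rintro (h3 | ⟨h3, h4⟩)
        · subst h3
          exact ⟨⟨by omega, h0⟩, RTC_one y⟩
        · exact ⟨⟨by omega, h3.2⟩, h4⟩
    rw [h2, card_insert_of_notMem (by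
      rw [mem_filter, mem_Ioc]
      rintro ⟨h3, -⟩
      omega)] at h1
    push_cast at h1
    have h3 : C * v / Real.log y = C / Real.log y * v := by ring
    linarith

open scoped Classical in
private theorem RTC_rec (y K : ℝ) (hK : 0 ≤ K) (hN : ∀ v : ℕ, (#{n ∈ Ioc 1 v | rgh y n} : ℝ) ≤ K * v)
    (m : ℕ) (hm : 1 ≤ m) :
    ∑ a ∈ Ioc 1 m with rgh y a, (1 / (a : ℝ)) ≤ (#{n ∈ Ioc 1 m | rgh y n} : ℝ) / m + K * Real.log m := by
  induction m, hm using Nat.le_induction with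
  | base =>
    rw [Ioc_self, filter_empty, sum_empty, card_empty, Nat.cast_zero, Nat.cast_one, Real.log_one,
      mul_zero, zero_div, add_zero]
  | succ m hm ih =>
    have hm0 : (0 : ℝ) < m := by exact_mod_cast hm
    have hNm := hN m
    rw [sum_filter, sum_Ioc_succ_top hm, ← sum_filter]
    have hc : (#{n ∈ Ioc 1 (m + 1) | rgh y n} : ℝ) = (#{n ∈ Ioc 1 m | rgh y n} : ℝ) +
        if rgh y (m + 1) then 1 else 0 := by
      rw [card_filter, card_filter, sum_Ioc_succ_top hm]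
      push_cast
      ring
    rw [hc]
    set c : ℝ := (#{n ∈ Ioc 1 m | rgh y n} : ℝ) with hcd
    have hlog : 1 / ((m : ℝ) + 1) ≤ Real.log ((m + 1 : ℕ) : ℝ) - Real.log m := by
      have h1 := Real.one_sub_inv_le_log_of_pos (x := ((m : ℝ) + 1) / m) (by positivity)
      rw [Real.log_div (by positivity) hm0.ne'] at h1
      push_cast
      refine le_trans (le_of_eq ?_) h1
      field_simp
      ring
    have h2 : c / m ≤ c / ((m : ℝ) + 1) + K * (1 / ((m : ℝ) + 1)) := by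
      have h3 : c / m - c / ((m : ℝ) + 1) = (c / m) * (1 / ((m : ℝ) + 1)) := by
        field_simp
        ring
      have h4 : c / m ≤ K := by
        rw [div_le_iff₀ hm0]
        exact hNm
      have h5 : (c / m) * (1 / ((m : ℝ) + 1)) ≤ K * (1 / ((m : ℝ) + 1)) :=
        mul_le_mul_of_nonneg_right h4 (by positivity)
      linarith
    have h6 : K * (1 / ((m : ℝ) + 1)) ≤ K * (Real.log ((m + 1 : ℕ) : ℝ) - Real.log m) :=
      mul_le_mul_of_nonneg_left hlog hK
    have h7 : (c + if rgh y (m + 1) then 1 else 0) / ((m + 1 : ℕ) : ℝ) = c / ((m : ℝ) + 1) +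
        if rgh y (m + 1) then 1 / ((m + 1 : ℕ) : ℝ) else 0 := by
      push_cast
      split_ifs
      · rw [add_div]
      · rw [add_zero, add_zero]
    rw [h7]
    nlinarith

open scoped Classical in
private theorem RTC_inv (y K : ℝ) (hK : 0 ≤ K) (hN : ∀ v : ℕ, (#{n ∈ Ioc 1 v | rgh y n} : ℝ) ≤ K * v)
    (m : ℕ) (hm : 1 ≤ m) :
    ∑ a ∈ Ioc 1 m with rgh y a, (1 / (a : ℝ)) ≤ K * (1 + Real.log m) := by
  refine (RTC_rec y K hK hN m hm).trans ?_
  have hm0 : (0 : ℝ) < m := by exact_mod_cast hm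
  have h1 : (#{n ∈ Ioc 1 m | rgh y n} : ℝ) / m ≤ K := by
    rw [div_le_iff₀ hm0]
    exact hN m
  linarith

private theorem RTC_div (n : ℕ) (hn : n ≠ 0) :
    #n.divisors ≤ 2 + #{a ∈ n.divisors | 1 < a ∧ 1 < n / a} := by
  classical
  have h1 : n.divisors ⊆ {1, n} ∪ {a ∈ n.divisors | 1 < a ∧ 1 < n / a} := by
    intro a ha
    rw [mem_union, mem_insert, mem_singleton, mem_filter]
    obtain ⟨hd, -⟩ := Nat.mem_divisors.1 ha
    obtain ⟨b, hb⟩ := hd
    have ha0 : a ≠ 0 := by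
      rintro rfl
      rw [zero_mul] at hb
      exact hn hb
    have hb0 : b ≠ 0 := by
      rintro rfl
      rw [mul_zero] at hb
      exact hn hb
    have hq : n / a = b := by
      rw [hb]
      exact Nat.mul_div_cancel_left b (Nat.pos_of_ne_zero ha0)
    by_cases h2 : a = 1
    · exact Or.inl (Or.inl h2)
    by_cases h3 : b = 1
    · rw [h3, mul_one] at hb
      exact Or.inl (Or.inr hb.symm)
    · exact Or.inr ⟨ha, by omega, by rw [hq]; omega⟩
  exact (card_le_card h1).trans ((card_union_le _ _).trans (Nat.add_le_add_right card_le_two _))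

open scoped Classical in
private theorem RTC_dbl (y : ℝ) (u : ℕ) :
    ∑ n ∈ Ioc 1 u with rgh y n, #{a ∈ n.divisors | 1 < a ∧ 1 < n / a} ≤
      ∑ a ∈ Ioc 1 u with rgh y a, #{b ∈ Ioc 1 (u / a) | rgh y b} := by
  rw [← card_sigma, ← card_sigma]
  refine card_le_card_of_injOn (fun p => ⟨p.2, p.1 / p.2⟩) ?_ ?_
  · intro p hp
    rw [mem_coe, mem_sigma, mem_filter, mem_filter, mem_Ioc] at hp
    obtain ⟨⟨h1, h2⟩, h3, h4, h5⟩ := hp
    obtain ⟨hd, hn⟩ := Nat.mem_divisors.1 h3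
    rw [mem_coe, mem_sigma, mem_filter, mem_filter, mem_Ioc, mem_Ioc]
    refine ⟨⟨⟨h4, (Nat.le_of_dvd (by omega) hd).trans h1.2⟩, RTC_dvd y h2 hd⟩, ⟨h5, ?_⟩, ?_⟩
    · exact Nat.div_le_div_right h1.2
    · exact RTC_dvd y h2 (Nat.div_dvd_of_dvd hd)
  · intro p hp q hq hpq
    rw [mem_coe, mem_sigma, mem_filter, mem_filter, mem_Ioc] at hp hq
    have hpd := (Nat.mem_divisors.1 hp.2.1).1
    have hqd := (Nat.mem_divisors.1 hq.2.1).1
    have h1 : p.2 = q.2 := congrArg Sigma.fst hpq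
    have h2 : p.1 / p.2 = q.1 / q.2 := by
      have h3 := hpq
      rw [Sigma.mk.injEq] at h3
      exact eq_of_heq h3.2
    have h4 : p.1 = q.1 := by
      rw [← Nat.div_mul_cancel hpd, ← Nat.div_mul_cancel hqd, h2, h1]
    exact Sigma.ext h4 (heq_of_eq h1)

theorem RTC (hRC : CH.RC_stmt) : RTC_stmt := by
  classical
  obtain ⟨C, hC, hRC⟩ := hRC
  refine ⟨2 * C + 2 * C ^ 2, by positivity, fun y u hy => ?_⟩
  have hL : 0 < Real.log y := Real.log_pos (by linarith)
  set K : ℝ := C / Real.log y with hK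
  have hK0 : 0 ≤ K := by positivity
  have hN : ∀ v : ℕ, (#{n ∈ Ioc 1 v | rgh y n} : ℝ) ≤ K * v :=
    RTC_cnt y C fun w hw => hRC y w hy hw
  rcases Nat.eq_zero_or_pos u with h0 | h0
  · subst h0
    rw [Ioc_eq_empty (by omega), filter_empty, sum_empty, Nat.cast_zero, zero_div, mul_zero, zero_mul]
  have h1 : ∑ n ∈ Ioc 1 u with rgh y n, (#n.divisors : ℝ) ≤
      2 * (#{n ∈ Ioc 1 u | rgh y n} : ℝ) +
        ∑ a ∈ Ioc 1 u with rgh y a, (#{b ∈ Ioc 1 (u / a) | rgh y b} : ℝ) := by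
    have h2 : ∑ n ∈ Ioc 1 u with rgh y n, #n.divisors ≤
        ∑ n ∈ Ioc 1 u with rgh y n, (2 + #{a ∈ n.divisors | 1 < a ∧ 1 < n / a}) := by
      refine sum_le_sum fun n hn => RTC_div n ?_
      rw [mem_filter, mem_Ioc] at hn
      omega
    rw [sum_add_distrib, sum_const, smul_eq_mul] at h2
    have h3 := h2.trans (Nat.add_le_add_left (RTC_dbl y u) _)
    have h4 : ((∑ n ∈ Ioc 1 u with rgh y n, #n.divisors : ℕ) : ℝ) ≤
        ((#{n ∈ Ioc 1 u | rgh y n} * 2 + ∑ a ∈ Ioc 1 u with rgh y a, #{b ∈ Ioc 1 (u / a) | rgh y b} : ℕ) : ℝ) := by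
      exact_mod_cast h3
    push_cast at h4
    linarith
  have h5 : ∑ a ∈ Ioc 1 u with rgh y a, (#{b ∈ Ioc 1 (u / a) | rgh y b} : ℝ) ≤
      K * u * (K * (1 + Real.log u)) := by
    calc ∑ a ∈ Ioc 1 u with rgh y a, (#{b ∈ Ioc 1 (u / a) | rgh y b} : ℝ)
        ≤ ∑ a ∈ Ioc 1 u with rgh y a, K * u * (1 / (a : ℝ)) := by
          refine sum_le_sum fun a _ => (hN (u / a)).trans ?_
          rw [mul_assoc]
          refine mul_le_mul_of_nonneg_left ?_ hK0
          rw [mul_one_div]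
          exact Nat.cast_div_le
      _ = K * u * ∑ a ∈ Ioc 1 u with rgh y a, (1 / (a : ℝ)) := by rw [mul_sum]
      _ ≤ K * u * (K * (1 + Real.log u)) :=
          mul_le_mul_of_nonneg_left (RTC_inv y K hK0 hN u h0) (by positivity)
  have h6 := hN u
  have h7 : ∑ n ∈ Ioc 1 u with rgh y n, (#n.divisors : ℝ) ≤
      2 * (K * u) + K * u * (K * (1 + Real.log u)) := by linarith
  refine h7.trans ?_
  have hlu : 0 ≤ Real.log u := Real.log_natCast_nonneg u
  have hl2 : (1 : ℝ) / 2 ≤ Real.log y := by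
    have h8 : Real.log 2 ≤ Real.log y := Real.log_le_log (by norm_num) hy
    have h9 := Real.log_two_gt_d9
    linarith
  have h10 : (1 + Real.log u) / Real.log y ≤ 2 * (1 + Real.log u / Real.log y) := by
    rw [add_div]
    have h11 : 1 / Real.log y ≤ 2 := by
      rw [div_le_iff₀ hL]
      linarith
    have h12 : 0 ≤ Real.log u / Real.log y := by positivity
    linarith
  have h13 : 2 * (K * u) + K * u * (K * (1 + Real.log u)) =
      u / Real.log y * (2 * C + C ^ 2 * ((1 + Real.log u) / Real.log y)) := by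
    rw [hK]
    field_simp
  rw [h13]
  have h14 : 0 ≤ Real.log u / Real.log y := by positivity
  have h15 : 2 * C + C ^ 2 * ((1 + Real.log u) / Real.log y) ≤
      (2 * C + 2 * C ^ 2) * (1 + Real.log u / Real.log y) := by
    have h16 : C ^ 2 * ((1 + Real.log u) / Real.log y) ≤ C ^ 2 * (2 * (1 + Real.log u / Real.log y)) :=
      mul_le_mul_of_nonneg_left h10 (by positivity)
    nlinarith
  calc u / Real.log y * (2 * C + C ^ 2 * ((1 + Real.log u) / Real.log y))
      ≤ u / Real.log y * ((2 * C + 2 * C ^ 2) * (1 + Real.log u / Real.log y)) :=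
        mul_le_mul_of_nonneg_left h15 (by positivity)
    _ = (2 * C + 2 * C ^ 2) * (u / Real.log y) * (1 + Real.log u / Real.log y) := by ring

end Pool.Agent.BP
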